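import Pool.Agent.H7.GT.Stmts

/-!
# Board gt7, row CZB: at most one part with few neighbours of `z`
-/

set_option autoImplicit false

open Finset

namespace Pool.GT7

open Pool.Agent.H23.KT Pool.Agent.H46.KW Pool.KQ

/-- The numbers. -/
lemma CZB_num {b s c₁ T c2 c1 κ Sg E q : ℝ} (hb : 3 ≤ b) (hs0 : 0 < s) (hs1 : s ≤ 1 / 4)
    (hc : 0 ≤ c₁) (hT0 : 0 ≤ T) (hT : c2 + 1 / 2 * c1 ≤ T) (hs : s * c2 ≤ c1)
    (hκ : 0 ≤ κ) (hSg : Sg ≤ c₁ * ((1 - 1 / b) * T + 1 / b * c2))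
    (hE : q * κ ≤ Sg + E) (hErr : E ≤ c₁ * (s / (12 * b) * T)) (hq : 1 - s / (32 * b) ≤ q) :
    κ ≤ (1 - s / (8 * b)) * (c₁ * T) := by
  have hb0 : 0 < b := by linarith
  set y : ℝ := 1 / b with hy
  have hy0 : 0 < y := by rw [hy]; positivity
  have hy3 : y ≤ 1 / 3 := by
    rw [hy]; apply one_div_le_one_div_of_le <;> linarith
  have e1' : s / (12 * b) = s * y / 12 := by rw [hy]; field_simp
  have e2' : s / (32 * b) = s * y / 32 := by rw [hy]; field_simp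
  have e3' : s / (8 * b) = s * y / 8 := by rw [hy]; field_simp
  rw [e1'] at hErr
  rw [e2'] at hq
  rw [e3']
  have h1 : (1 + s / 2) * c2 ≤ T := by linarith
  have h2 : T ≤ (1 + s / 2) * (T * (1 - s / 3)) := by
    have : (1 + s / 2) * (T * (1 - s / 3)) - T = T * (s * (1 - s) / 6) := by ring
    have h3 : 0 ≤ T * (s * (1 - s) / 6) := by
      apply mul_nonneg hT0
      apply div_nonneg _ (by norm_num)
      exact mul_nonneg hs0.le (by linarith)
    linarith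
  have h3 : c2 ≤ T * (1 - s / 3) :=
    le_of_mul_le_mul_left (h1.trans h2) (by linarith)
  have h4 : Sg ≤ c₁ * (T * (1 - s * y / 3)) := by
    refine hSg.trans (mul_le_mul_of_nonneg_left ?_ hc)
    have h5 : y * c2 ≤ y * (T * (1 - s / 3)) := mul_le_mul_of_nonneg_left h3 hy0.le
    linarith
  have h6 : (1 - s * y / 32) * κ ≤ c₁ * (T * (1 - s * y / 4)) := by
    calc (1 - s * y / 32) * κ ≤ q * κ := mul_le_mul_of_nonneg_right hq hκ
      _ ≤ Sg + E := hE
      _ ≤ c₁ * (T * (1 - s * y / 3)) + c₁ * (s * y / 12 * T) := add_le_add h4 hErr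
      _ = c₁ * (T * (1 - s * y / 4)) := by ring
  have hsy : 0 < s * y := mul_pos hs0 hy0
  have hsy1 : s * y ≤ 1 / 12 := by nlinarith
  have h7 : c₁ * (T * (1 - s * y / 4)) ≤
      (1 - s * y / 32) * ((1 - s * y / 8) * (c₁ * T)) := by
    have h8 : (1 - s * y / 32) * ((1 - s * y / 8) * (c₁ * T)) -
        c₁ * (T * (1 - s * y / 4)) = (c₁ * T) * (s * y * (3 / 32) + (s * y) ^ 2 / 256) := by ring
    have h9 : 0 ≤ (c₁ * T) * (s * y * (3 / 32) + (s * y) ^ 2 / 256) := by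
      apply mul_nonneg (mul_nonneg hc hT0)
      positivity
    linarith
  exact le_of_mul_le_mul_left (h6.trans h7) (by linarith)

/-- Many cliques in which `z` has `p + 2` neighbours. -/
lemma CZB_many (hTRV : TRVStmt) (hBRK : BRKStmt) {V : Type} [DecidableEq V] (G : SimpleGraph V)
    (p a : ℕ) (C e : ℝ) (P : Fin (p + 3) → Finset V) (hP : Par G P)
    (hC : 0 ≤ C) (ha : 1 ≤ a) (hbig : 2 * (C * 2 ^ (p + 1) * 32 ^ (p + 3)) ≤ (a : ℝ))
    (he0 : 0 ≤ e) (he1 : e ≤ 1 / 2)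
    (hlo : ∀ i, (1 - e) * a ≤ ((P i).card : ℝ)) (hhi : ∀ i, ((P i).card : ℝ) ≤ (1 + e) * a)
    (htot : (tot G P : ℝ) ≤ C * a) (z : V)
    (hcard : ∀ L ∈ clq G (un P) (p + 3), (nb G L z).card ≤ p + 2) (k0 : Fin (p + 3))
    (hk0 : ∀ l, l ≠ k0 → (a : ℝ) / 32 ≤ ((nb G (P l) z).card : ℝ)) :
    (a : ℝ) ^ (p + 3) / (2 * 32 ^ (p + 3)) ≤ cc G p (un P) (p + 2) z := by
  classical
  have haR : (1 : ℝ) ≤ a := by exact_mod_cast ha
  set S : Fin (p + 3) → Finset V := fun l => if l = k0 then P l else nb G (P l) z with hS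
  have hSk : S k0 = P k0 := by rw [hS]; simp
  have hSl : ∀ l, l ≠ k0 → S l = nb G (P l) z := fun l hl => by
    rw [hS]; simp only [if_neg hl]
  have hSP : ∀ l, S l ⊆ P l := by
    intro l
    by_cases hl : l = k0
    · rw [hl, hSk]
    · rw [hSl l hl]; exact nb_subset G _ _
  have hScard : ∀ l, (a : ℝ) / 32 ≤ ((S l).card : ℝ) := by
    intro l
    by_cases hl : l = k0
    · rw [hl, hSk]
      refine le_trans ?_ (hlo k0)
      nlinarith
    · rw [hSl l hl]; exact hk0 l hl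
  have hPle : ∀ l, (P l).card ≤ 2 * a := by
    intro l
    have h1 : ((P l).card : ℝ) ≤ 2 * (a : ℝ) := by
      refine (hhi l).trans ?_
      nlinarith
    exact_mod_cast h1
  have hSle : ∀ l, (S l).card ≤ 2 * a := fun l =>
    (Finset.card_le_card (hSP l)).trans (hPle l)
  have h1 := (hBRK G p S).1 (2 * a) hSle
  have h2 := (hBRK G p P).2.2 S hSP
  have h1R : ∏ i, ((S i).card : ℝ) ≤ (trv G S).card + tot G S * (2 * (a : ℝ)) ^ (p + 1) := by
    exact_mod_cast h1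
  have h2R : (tot G S : ℝ) ≤ C * a := le_trans (by exact_mod_cast h2) htot
  have h3 : ((a : ℝ) / 32) ^ (p + 3) ≤ ∏ i, ((S i).card : ℝ) := by
    have h4 : ∏ _i : Fin (p + 3), ((a : ℝ) / 32) ≤ ∏ i, ((S i).card : ℝ) :=
      Finset.prod_le_prod (fun i _ => by positivity) (fun i _ => hScard i)
    rwa [Finset.prod_const, Finset.card_univ, Fintype.card_fin] at h4
  have h5 : (tot G S : ℝ) * (2 * (a : ℝ)) ^ (p + 1) ≤ C * a * (2 * (a : ℝ)) ^ (p + 1) :=
    mul_le_mul_of_nonneg_right h2R (by positivity)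
  have h6 : C * a * (2 * (a : ℝ)) ^ (p + 1) ≤ (a : ℝ) ^ (p + 3) / (2 * 32 ^ (p + 3)) := by
    rw [le_div_iff₀ (by positivity)]
    have h7 : C * a * (2 * (a : ℝ)) ^ (p + 1) * (2 * 32 ^ (p + 3)) =
        (2 * (C * 2 ^ (p + 1) * 32 ^ (p + 3))) * (a : ℝ) ^ (p + 2) := by
      rw [mul_pow]; ring
    rw [h7]
    calc (2 * (C * 2 ^ (p + 1) * 32 ^ (p + 3))) * (a : ℝ) ^ (p + 2)
        ≤ a * (a : ℝ) ^ (p + 2) := mul_le_mul_of_nonneg_right hbig (by positivity)
      _ = (a : ℝ) ^ (p + 3) := by ring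
  have h8 : ((a : ℝ) / 32) ^ (p + 3) = 2 * ((a : ℝ) ^ (p + 3) / (2 * 32 ^ (p + 3))) := by
    rw [div_pow]
    have : (0 : ℝ) < 32 ^ (p + 3) := by positivity
    field_simp
  have h9 : (a : ℝ) ^ (p + 3) / (2 * 32 ^ (p + 3)) ≤ (trv G S).card := by linarith
  refine h9.trans ?_
  -- comparison with cc
  have hcc : (cc G p (un P) (p + 2) z : ℝ) =
      ∑ L ∈ clq G (un P) (p + 3), (if (nb G L z).card = p + 2 then (1 : ℝ) else 0) := by
    unfold cc
    rw [Finset.card_filter]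
    push_cast
    rfl
  rw [hcc, (hTRV G P hP).2 (fun L => if (nb G L z).card = p + 2 then (1 : ℝ) else 0)]
  have hsub : trv G S ⊆ trv G P := by
    intro f hf
    unfold trv at hf ⊢
    rw [mem_filter, Fintype.mem_piFinset] at hf ⊢
    exact ⟨fun i => hSP i (hf.1 i), hf.2⟩
  have h10 : ((trv G S).card : ℝ) = ∑ f ∈ trv G S,
      (if (nb G (univ.image f) z).card = p + 2 then (1 : ℝ) else 0) := by
    rw [Finset.card_eq_sum_ones]
    push_cast
    refine Finset.sum_congr rfl fun f hf => ?_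
    have hf' := hsub hf
    unfold trv at hf hf'
    rw [mem_filter, Fintype.mem_piFinset] at hf hf'
    obtain ⟨hfS, hfa⟩ := hf
    have hinj : Function.Injective f := by
      intro j l h
      by_contra hjl
      have := hfa j l hjl
      rw [h] at this
      exact G.loopless.irrefl _ this
    have hL : univ.image f ∈ clq G (un P) (p + 3) := by
      rw [mem_clq]
      refine ⟨?_, ?_, ?_⟩
      · intro x hx
        obtain ⟨i, -, rfl⟩ := mem_image.1 hx
        exact mem_biUnion.2 ⟨i, mem_univ i, hf'.1 i⟩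
      · rw [Finset.card_image_of_injective _ hinj, Finset.card_univ, Fintype.card_fin]
      · intro x hx y hy hxy
        rw [mem_coe] at hx hy
        obtain ⟨i, -, rfl⟩ := mem_image.1 hx
        obtain ⟨j, -, rfl⟩ := mem_image.1 hy
        exact hfa i j fun h => hxy (by rw [h])
    have hle := hcard _ hL
    have hge : p + 2 ≤ (nb G (univ.image f) z).card := by
      have h11 : (univ.erase k0).image f ⊆ nb G (univ.image f) z := by
        intro x hx
        obtain ⟨i, hi, rfl⟩ := mem_image.1 hx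
        rw [mem_nb]
        refine ⟨mem_image.2 ⟨i, mem_univ i, rfl⟩, ?_⟩
        have h12 := hfS i
        rw [hSl i (mem_erase.1 hi).1, mem_nb] at h12
        exact h12.2
      have h13 := Finset.card_le_card h11
      rw [Finset.card_image_of_injective _ hinj, Finset.card_erase_of_mem (mem_univ k0),
        Finset.card_univ, Fintype.card_fin] at h13
      exact h13
    rw [if_pos (le_antisymm hle hge)]
  rw [h10]
  exact Finset.sum_le_sum_of_subset_of_nonneg hsub fun f _ _ => by split_ifs <;> norm_num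

theorem CZB_thm (h1 : TRVStmt) (h2 : BRKStmt) (h3 : CCKStmt) (h4 : SUMStmt) (h5 : EXBStmt)
    (h6 : SWPStmt) : CZBStmt := by
  intro p w r hprm
  obtain ⟨s, e₀, hs0, hs1, he₀, he₀', hSWP⟩ := h6 p w r hprm
  have hp : (0 : ℝ) ≤ p := Nat.cast_nonneg _
  set b : ℝ := (p : ℝ) + 3 with hb
  have hb3 : 3 ≤ b := by linarith
  have hb0 : 0 < b := by linarith
  refine ⟨s / (8 * b), min e₀ (s / (32 * b ^ 2)), by positivity, ?_, ?_, ?_, ?_⟩
  · rw [div_le_iff₀ (by positivity)]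
    linarith
  · exact lt_min he₀ (by positivity)
  · exact (min_le_left _ _).trans he₀'
  intro C
  obtain ⟨a₁, ha₁⟩ := hSWP C
  set A₁ : ℝ := 2 * (|C| * 2 ^ (p + 1) * 32 ^ (p + 3)) with hA₁
  set K₁ : ℝ := ((p + 3).choose (w + 1) : ℝ) with hK₁
  set A₂ : ℝ := K₁ * (|C| * 2 ^ (p + 1)) * (12 * b) / s * (2 * 32 ^ (p + 3)) with hA₂
  refine ⟨a₁ + ⌈A₁⌉₊ + ⌈A₂⌉₊ + 1, ?_⟩
  intro a ha V _ G e W P U hStr he he' hCB z hz k0 hk0
  have ha1 : a₁ ≤ a := by omega
  have haA₁ : A₁ ≤ a := (Nat.le_ceil A₁).trans (by exact_mod_cast (show ⌈A₁⌉₊ ≤ a by omega))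
  have haA₂ : A₂ ≤ a := (Nat.le_ceil A₂).trans (by exact_mod_cast (show ⌈A₂⌉₊ ≤ a by omega))
  have ha0 : 1 ≤ a := by omega
  have haR : (1 : ℝ) ≤ a := by exact_mod_cast ha0
  have haR0 : (0 : ℝ) < a := by linarith
  have hee₀ : e ≤ e₀ := he'.trans (min_le_left _ _)
  have hee1 : e ≤ e1 p / 2 := hee₀.trans he₀'
  have hes : e ≤ s / (32 * b ^ 2) := he'.trans (min_le_right _ _)
  have hhalf : e ≤ 1 / 2 := by
    refine hee1.trans ?_
    have : e1 p ≤ 1 := by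
      unfold e1
      rw [div_le_one (by positivity)]
      have h7 : (1 : ℝ) ≤ ((p : ℝ) + 3) ^ 3 := one_le_pow₀ (by linarith)
      linarith
    linarith
  have hs := ha₁ a ha1 G e W P U hStr he hee₀ hCB z hz
  obtain ⟨hc1, -, -, hc4⟩ := h3 G p w r a e C W P U hprm hStr he hee1 hCB z hz
  have hsum := h4 G p w r a e C W P U hprm hStr he hee1 hCB z hz
  have hexb := h5 G p a e P he hhalf hStr.par (fun i => ⟨hStr.lo i, hStr.hi i⟩) z (w + 1)
    (by have := hprm.wp; omega)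
  have htotC : (tot G P : ℝ) ≤ |C| * a :=
    hStr.tot.trans (mul_le_mul_of_nonneg_right (le_abs_self C) haR0.le)
  have hmany := CZB_many h1 h2 G p a |C| e P hStr.par (abs_nonneg C) ha0 haA₁ he hhalf
    hStr.lo hStr.hi htotC z hc1 k0 hk0
  set c2 : ℝ := (cc G p (un P) (p + 2) z : ℝ) with hc2
  set c1 : ℝ := (cc G p (un P) (p + 1) z : ℝ) with hc1'
  set T : ℝ := TZ G p r (un P) z with hT
  set κ : ℝ := (kc G (nb G (un P) z) (w + 1) : ℝ) with hκ
  set Sg : ℝ := ∑ L ∈ clq G (un P) (p + 3), ((nb G L z).card.choose (w + 1) : ℝ) with hSg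
  set c₁ : ℝ := ((p + 2).choose (w + 1) : ℝ) with hc₁
  have hc2n : 0 ≤ c2 := Nat.cast_nonneg _
  have hc1n : 0 ≤ c1 := Nat.cast_nonneg _
  have hκn : 0 ≤ κ := Nat.cast_nonneg _
  have hT2 : c2 ≤ T := by linarith
  have hT0 : 0 ≤ T := hc2n.trans hT2
  have hc₁1 : 1 ≤ c₁ := by
    have : 0 < (p + 2).choose (w + 1) := Nat.choose_pos (by have := hprm.wp; omega)
    rw [hc₁]
    exact_mod_cast this
  have hK₁0 : 0 ≤ K₁ := Nat.cast_nonneg _
  have hX : 0 < (2 * 32 ^ (p + 3) : ℝ) := by positivity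
  -- the error
  have hErr : K₁ * (tot G P * (2 * (a : ℝ)) ^ (p + 1)) ≤ c₁ * (s / (12 * b) * T) := by
    have h7 : K₁ * (tot G P * (2 * (a : ℝ)) ^ (p + 1)) ≤
        K₁ * (|C| * a * (2 * (a : ℝ)) ^ (p + 1)) :=
      mul_le_mul_of_nonneg_left (mul_le_mul_of_nonneg_right htotC (by positivity)) hK₁0
    have h8 : K₁ * (|C| * a * (2 * (a : ℝ)) ^ (p + 1)) =
        (K₁ * (|C| * 2 ^ (p + 1))) * (a : ℝ) ^ (p + 2) := by
      rw [mul_pow]; ring
    have h9 : K₁ * (|C| * 2 ^ (p + 1)) = A₂ * (s / (12 * b)) / (2 * 32 ^ (p + 3)) := by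
      rw [hA₂]
      field_simp
    have h10 : A₂ * (s / (12 * b)) / (2 * 32 ^ (p + 3)) * (a : ℝ) ^ (p + 2) ≤
        (a : ℝ) * (s / (12 * b)) / (2 * 32 ^ (p + 3)) * (a : ℝ) ^ (p + 2) := by
      apply mul_le_mul_of_nonneg_right _ (by positivity)
      apply div_le_div_of_nonneg_right _ hX.le
      exact mul_le_mul_of_nonneg_right haA₂ (by positivity)
    have h11 : (a : ℝ) * (s / (12 * b)) / (2 * 32 ^ (p + 3)) * (a : ℝ) ^ (p + 2) =
        s / (12 * b) * ((a : ℝ) ^ (p + 3) / (2 * 32 ^ (p + 3))) := by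
      ring
    have h12 : s / (12 * b) * ((a : ℝ) ^ (p + 3) / (2 * 32 ^ (p + 3))) ≤ s / (12 * b) * T :=
      mul_le_mul_of_nonneg_left (hmany.trans hT2) (by positivity)
    have h13 : s / (12 * b) * T ≤ c₁ * (s / (12 * b) * T) :=
      le_mul_of_one_le_left (by positivity) hc₁1
    rw [h9] at h8
    linarith
  have hq : 1 - s / (32 * b) ≤ (1 - e) ^ (p + 3 - (w + 1)) := by
    have h7 := one_add_mul_le_pow (show (-2 : ℝ) ≤ -e by linarith) (p + 3 - (w + 1))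
    have h8 : ((p + 3 - (w + 1) : ℕ) : ℝ) ≤ b := by
      have : p + 3 - (w + 1) ≤ p + 3 := by omega
      have h9 : ((p + 3 - (w + 1) : ℕ) : ℝ) ≤ ((p + 3 : ℕ) : ℝ) := by exact_mod_cast this
      rw [hb]
      refine h9.trans (le_of_eq ?_)
      push_cast
      ring
    have h9 : ((p + 3 - (w + 1) : ℕ) : ℝ) * e ≤ b * (s / (32 * b ^ 2)) := by
      calc ((p + 3 - (w + 1) : ℕ) : ℝ) * e ≤ b * e := mul_le_mul_of_nonneg_right h8 he
        _ ≤ b * (s / (32 * b ^ 2)) := mul_le_mul_of_nonneg_left hes hb0.le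
    have h10 : b * (s / (32 * b ^ 2)) = s / (32 * b) := by
      field_simp
    have h11 : (1 - e) = 1 + -e := by ring
    rw [h11]
    refine le_trans ?_ h7
    have h12 : ((p + 3 - (w + 1) : ℕ) : ℝ) * -e = -(((p + 3 - (w + 1) : ℕ) : ℝ) * e) := by ring
    rw [h12]
    linarith
  have hE : (1 - e) ^ (p + 3 - (w + 1)) * ((a : ℝ) ^ (p + 3 - (w + 1)) * κ) ≤
      Sg + K₁ * (tot G P * (2 * (a : ℝ)) ^ (p + 1)) := by
    rw [← mul_assoc, ← mul_pow]
    exact hexb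
  have hfin := CZB_num (b := b) (s := s) (c₁ := c₁) (T := T) (c2 := c2) (c1 := c1)
    (κ := (a : ℝ) ^ (p + 3 - (w + 1)) * κ) (Sg := Sg)
    (E := K₁ * (tot G P * (2 * (a : ℝ)) ^ (p + 1))) (q := (1 - e) ^ (p + 3 - (w + 1)))
    hb3 hs0 hs1 (by linarith) hT0 hc4 hs (mul_nonneg (pow_nonneg haR0.le _) hκn) hsum hE hErr hq
  have hpow : (a : ℝ) ^ (p + 3) = (a : ℝ) ^ (p + 3 - (w + 1)) * (a : ℝ) ^ (w + 1) := by
    rw [← pow_add]
    congr 1
    have := hprm.wp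
    omega
  rw [hpow]
  calc κ * ((a : ℝ) ^ (p + 3 - (w + 1)) * (a : ℝ) ^ (w + 1))
      = ((a : ℝ) ^ (p + 3 - (w + 1)) * κ) * (a : ℝ) ^ (w + 1) := by ring
    _ ≤ ((1 - s / (8 * b)) * (c₁ * T)) * (a : ℝ) ^ (w + 1) :=
        mul_le_mul_of_nonneg_right hfin (pow_nonneg haR0.le _)
    _ = (1 - s / (8 * b)) * (c₁ * (a : ℝ) ^ (w + 1)) * T := by ring

end Pool.GT7
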